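import Pool.Agent.Lib_helper15.PFM.Defs
import Pool.Agent.Lib_helper18.PENM.DG

/-!
# MP_892e4c_nt (B*), first moments for the paths (helper15): definitions

`Vec 10` is used as `PolyK 11` (the edge `10` is open: `det ((0,1), (1,0)) = -1`).
-/

set_option autoImplicit false

namespace Pool.Agent.UPA

open Finset Pool.Agent.PENT Pool.Agent.PATH.NC Pool.Agent.PFM
open Pool.Agent.PENK (PolyK Wts dn dl mL ich EquiF prs lw L1 Rf)

/-- the path as a closed polygon -/
def tp (u : Vec 10) : PolyK 11 := u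

/-- the exponent of `log X` of the second sieve, `log P0 = (log X) ^ (1/100)` -/
noncomputable def exW {K : ℕ} (fe vq : Finset (Fin K)) (W : Wts K) : ℝ :=
  -(fe.card : ℝ) + ∑ j ∈ fe, W.al j - ∑ i ∈ vq, (1 - W.be i) +
    1 / 100 * (∑ i ∈ vq, (1 - W.be i) - ∑ i ∈ vq, (1 - W.bo i) - ∑ j ∈ fe, W.al j)

/-- the edges `0, …, 9` -/
def feD : Finset (Fin 11) := univ.erase 10

/-- the edges `1, …, 8` -/
def feU : Finset (Fin 11) := (univ.erase 10).erase 0 |>.erase 9

/-- the vertices `1, …, 9` -/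
def vqU : Finset (Fin 11) := (univ.erase 10).erase 0

/-! ### families -/

/-- the range of a coordinate -/
noncomputable def cs (o : Option ℤ) (A : ℕ) : Finset ℤ :=
  match o with
  | none => Icc 1 (A : ℤ)
  | some c => {c}

/-- the residues of a coordinate -/
noncomputable def cr (o : Option ℤ) (p : ℕ) : Finset ℤ :=
  match o with
  | none => Ico 0 (p : ℤ)
  | some c => {c}

/-- the family with the fixed coordinates `c` -/
noncomputable def FamO {K : ℕ} (c : Fin K → Option ℤ × Option ℤ) (A : Fin K → ℕ) :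
    Finset (PolyK K) :=
  Fintype.piFinset (fun j => cs (c j).1 (A j) ×ˢ cs (c j).2 (A j))

/-- its law modulo `p` -/
noncomputable def LawO {K : ℕ} (c : Fin K → Option ℤ × Option ℤ) (p : ℕ) : Finset (PolyK K) :=
  Fintype.piFinset (fun j => cr (c j).1 p ×ˢ cr (c j).2 p)

/-- fixed: `u_0 = (1,0)`, `u_10 = (0,1)` -/
def cD (j : Fin 11) : Option ℤ × Option ℤ :=
  if j = 0 then (some 1, some 0) else if j = 10 then (some 0, some 1) else (none, none)

/-- fixed: `u_0 = (1,0)`, `u_1 = (*, d_0)`, `u_9 = (d_9, *)`, `u_10 = (0,1)` -/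
def cU (d0 d9 : ℕ) (j : Fin 11) : Option ℤ × Option ℤ :=
  if j = 0 then (some 1, some 0) else if j = 10 then (some 0, some 1)
  else if j = 1 then (none, some (d0 : ℤ)) else if j = 9 then (some (d9 : ℤ), none)
  else (none, none)

/-! ### weights -/

/-- the weights of `W` as `Wts 11`, raised to the power `1 + η` -/
noncomputable def WD (η : ℝ) : Wts 11 where
  al := fun j => if j = 10 then 0 else alE 10 j.val ^ (1 + η)
  be := fun i => beV 10 i.val ^ (1 + η)
  bo := fun i => boV i.val

/-- the weights of `W (W / ν_j)^η` -/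
noncomputable def WN (j : Fin 10) (η : ℝ) : Wts 11 where
  al := fun i => if i = 10 then 0 else
    alE 10 i.val ^ (1 + η) * (if i.val + 1 = j.val then PENM.wS0 j.val ^ (-η)
      else if i.val = j.val + 1 then PENM.wS1 j.val ^ (-η) else 1)
  be := fun i => beV 10 i.val ^ (1 + η) * (if i.val = j.val then PENM.wS0 j.val ^ (-η)
      else if i.val = j.val + 1 then PENM.wS1 j.val ^ (-η) else 1)
  bo := fun i => boV i.val

/-- the part of the edges -/
noncomputable def edP (W : Wts 11) (fe : Finset (Fin 11)) (P : ℕ) (u : PolyK 11) : ℝ :=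
  ∏ j ∈ fe, ∏ l ∈ (dn u j).primeFactors, 2 * lw P l (W.al j) / (l : ℝ)

/-- the part of the vertices -/
noncomputable def vxP (W : Wts 11) (fe vq : Finset (Fin 11)) (P0 P : ℕ) (u : PolyK 11) : ℝ :=
  ∏ l ∈ (prs 1100 P).filter (fun l => ¬ l ∣ DE fe u), (1 - v1 W P0 vq u l)

end Pool.Agent.UPA
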