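import Pool.Agent.Lib_helper15.UP.Defs

/-!
# MP_892e4c_nt (B*), first moments for the paths (helper15): basic facts
-/

set_option autoImplicit false

namespace Pool.Agent.UPA

open Finset Pool.Agent.PENT Pool.Agent.PATH.NC Pool.Agent.PFM
open Pool.Agent.PENK (PolyK Wts dn dl mL ich EquiF prs lw L1 Rf)

theorem dn_dE (u : Vec 10) (j : Fin 11) (hj : j ≠ 10) : dn (tp u) j = dE u (j.val + 1) := by
  have h1 : j.val < 10 := by
    have := j.isLt
    have h2 : j.val ≠ 10 := fun h => hj (Fin.ext h)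
    omega
  have h3 : (j + 1 : Fin 11) = ⟨j.val + 1, by omega⟩ := by
    apply Fin.ext
    rw [Fin.val_add]
    show (j.val + 1) % 11 = j.val + 1
    exact Nat.mod_eq_of_lt (by omega)
  unfold dn dl dE tp
  rw [dif_pos (by omega : 1 ≤ j.val + 1 ∧ j.val + 1 ≤ 10)]
  show (dt (u j) (u (j + 1 : Fin 11))).natAbs = _
  rw [h3]
  rfl

theorem dn_last {p : Prm 10} {X : ℕ} {u : Vec 10} (h : GP p X u) : dn (tp u) 10 = 1 := by
  have h0 : u (0 : Fin 11) = (1, 0) := h.first
  have h1 : u (10 : Fin 11) = (0, 1) := h.last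
  have h2 : ((10 : Fin 11) + 1) = 0 := rfl
  unfold dn dl tp
  show (dt (u (10 : Fin 11)) (u ((10 : Fin 11) + 1))).natAbs = 1
  rw [h2, h0, h1]
  rfl

/-- the vertices are primitive modulo every prime -/
theorem gp_prim {p : Prm 10} {X : ℕ} {u : Vec 10} (h : GP p X u) (i : Fin 11) {l : ℕ}
    (hl : l.Prime) : ¬ ((l : ℤ) ∣ (u i).1 ∧ (l : ℤ) ∣ (u i).2) := by
  rintro ⟨h1, h2⟩
  have key : ∀ v w : ℤ × ℤ, ((l : ℤ) ∣ v.1 ∧ (l : ℤ) ∣ v.2) → (l : ℤ) ∣ dt v w := by
    intro v w hv
    unfold dt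
    exact dvd_sub (hv.1.mul_right _) (hv.2.mul_right _)
  have key' : ∀ v w : ℤ × ℤ, ((l : ℤ) ∣ w.1 ∧ (l : ℤ) ∣ w.2) → (l : ℤ) ∣ dt v w := by
    intro v w hv
    unfold dt
    exact dvd_sub (hv.2.mul_left _) (hv.1.mul_left _)
  have hi := i.isLt
  by_cases i0 : i.val = 0
  · have : i = (0 : Fin 11) := Fin.ext i0
    rw [this] at h1
    have h0 : u (0 : Fin 11) = (1, 0) := h.first
    rw [h0] at h1
    exact hl.one_lt.ne' (by exact_mod_cast Int.eq_one_of_dvd_one (by positivity) h1)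
  · by_cases i10 : i.val = 10
    · have : i = (10 : Fin 11) := Fin.ext i10
      rw [this] at h2
      have h0 : u (10 : Fin 11) = (0, 1) := h.last
      rw [h0] at h2
      exact hl.one_lt.ne' (by exact_mod_cast Int.eq_one_of_dvd_one (by positivity) h2)
    · have hc := h.cop i.val (i.val + 1) (by omega) (by omega) (by omega)
      have d1 : l ∣ dE u i.val := by
        unfold dE
        rw [dif_pos (by omega : 1 ≤ i.val ∧ i.val ≤ 10)]
        exact Int.natCast_dvd.1 (key' _ _ ⟨h1, h2⟩)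
      have d2 : l ∣ dE u (i.val + 1) := by
        unfold dE
        rw [dif_pos (by omega : 1 ≤ i.val + 1 ∧ i.val + 1 ≤ 10)]
        refine Int.natCast_dvd.1 ?_
        show (l : ℤ) ∣ dt (u ⟨i.val + 1 - 1, _⟩) (u ⟨i.val + 1, _⟩)
        have e : (⟨i.val + 1 - 1, by omega⟩ : Fin 11) = i := Fin.ext (by simp)
        exact key _ _ (by rw [show (⟨i.val + 1 - 1, by omega⟩ : Fin (10 + 1)) = i from e]; exact ⟨h1, h2⟩)
      have := Nat.dvd_gcd d1 d2
      rw [hc] at this
      exact hl.one_lt.ne' (Nat.dvd_one.1 this)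

theorem gp_dn_dp {p : Prm 10} {X : ℕ} {u : Vec 10} (h : GP p X u) (j : Fin 11) :
    DP (PP X) (dn (tp u) j) := by
  by_cases hj : j = 10
  · subst hj
    rw [dn_last h]
    exact ⟨squarefree_one, fun q hq hd => absurd (Nat.dvd_one.1 hd) hq.one_lt.ne'⟩
  · rw [dn_dE u j hj]
    have h2 : j.val ≠ 10 := fun h => hj (Fin.ext h)
    exact h.dp _ (by omega) (by have := j.isLt; omega)

theorem gp_isP {p : Prm 10} {X : ℕ} {u : Vec 10} (h : GP p X u) (E : Finset (Fin 11)) :
    IsP E ⌊PP X⌋₊ (tp u) := by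
  have hPP : 0 < PP X := Real.exp_pos _
  refine ⟨?_, ?_, ?_, ?_⟩
  · intro i
    rw [Int.isCoprime_iff_gcd_eq_one]
    by_contra hne
    obtain ⟨l, hl, hd⟩ := Nat.exists_prime_and_dvd hne
    exact gp_prim h i hl ⟨(Int.natCast_dvd_natCast.2 hd).trans (Int.gcd_dvd_left _ _),
      (Int.natCast_dvd_natCast.2 hd).trans (Int.gcd_dvd_right _ _)⟩
  · intro j _
    exact (gp_dn_dp h j).1
  · intro j _ l hl hd
    obtain ⟨a, b⟩ := (gp_dn_dp h j).2 l hl hd
    exact ⟨(Nat.floor_lt hPP.le).2 b, a⟩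
  · intro i _ j _ hij
    by_cases hi : i = 10
    · subst hi
      rw [dn_last h]
      exact Nat.coprime_one_left _
    · by_cases hj : j = 10
      · subst hj
        rw [dn_last h]
        exact Nat.coprime_one_right _
      · rw [dn_dE u i hi, dn_dE u j hj]
        have h1 : i.val ≠ 10 := fun h => hi (Fin.ext h)
        have h2 : j.val ≠ 10 := fun h => hj (Fin.ext h)
        have h3 := i.isLt
        have h4 := j.isLt
        rcases Nat.lt_or_ge i.val j.val with h5 | h5
        · exact h.cop _ _ (by omega) (by omega) (by omega)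
        · have h6 : i.val ≠ j.val := fun h => hij (Fin.ext h)
          exact (h.cop _ _ (by omega) (by omega) (by omega)).symm

theorem mem_feD {j : Fin 11} : j ∈ feD ↔ j ≠ 10 := by simp [feD]

theorem mem_feU {j : Fin 11} : j ∈ feU ↔ 1 ≤ j.val ∧ j.val ≤ 8 := by
  revert j; decide

theorem mem_vqU {j : Fin 11} : j ∈ vqU ↔ 1 ≤ j.val ∧ j.val ≤ 9 := by
  revert j; decide

theorem DE_feU (u : Vec 10) : DE feU (tp u) = Dint u := by
  unfold DE Dint
  refine Finset.prod_nbij' (fun j : Fin 11 => j.val + 1)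
    (fun i => if h : i - 1 < 11 then (⟨i - 1, h⟩ : Fin 11) else 0) ?_ ?_ ?_ ?_ ?_
  · intro j hj
    rw [mem_feU] at hj
    rw [Finset.mem_Icc]
    constructor
    · omega
    · show j.val + 1 ≤ 9
      omega
  · intro i hi
    rw [Finset.mem_Icc] at hi
    have hi2 : i ≤ 9 := hi.2
    rw [dif_pos (by omega), mem_feU]
    constructor
    · show 1 ≤ i - 1
      omega
    · show i - 1 ≤ 8
      omega
  · intro j hj
    have := j.isLt
    simp
  · intro i hi
    rw [Finset.mem_Icc] at hi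
    have hi2 : i ≤ 9 := hi.2
    rw [dif_pos (by omega)]
    show i - 1 + 1 = i
    omega
  · intro j hj
    rw [mem_feU] at hj
    exact dn_dE u j (fun h => by rw [h] at hj; exact absurd hj.2 (by decide))

theorem DE_univ {p : Prm 10} {X : ℕ} {u : Vec 10} (h : GP p X u) :
    DE univ (tp u) = DE feD (tp u) := by
  unfold DE feD
  rw [← Finset.mul_prod_erase univ (dn (tp u)) (Finset.mem_univ (10 : Fin 11)), dn_last h, one_mul]

/-- the separation in terms of norms -/
theorem gp_dn_ge {p : Prm 10} {X : ℕ} {u : Vec 10} (h : GP p X u) (j : Fin 11) (hj : j ≠ 10) :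
    p.c1 * ((nm (u j) : ℝ) * (nm (u (j + 1 : Fin 11)) : ℝ)) ≤ (dn (tp u) j : ℝ) := by
  have h1 : j.val ≠ 10 := fun h => hj (Fin.ext h)
  have hlt := j.isLt
  have h3 : (j + 1 : Fin 11).val = j.val + 1 := by
    rw [Fin.val_add]
    show (j.val + 1) % 11 = j.val + 1
    exact Nat.mod_eq_of_lt (by omega)
  have h4 := h.sep j (j + 1 : Fin 11) (by
    rw [Fin.lt_def, h3]; omega)
  refine h4.trans ?_
  unfold dn dl tp
  rw [Nat.cast_natAbs]
  exact_mod_cast le_abs_self _

theorem nm_pos {p : Prm 10} {X : ℕ} {u : Vec 10} (h : GP p X u) (i : Fin 11) : 1 ≤ nm (u i) := by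
  have hi := i.isLt
  by_cases i0 : i.val = 0
  · have e : i = (0 : Fin 11) := Fin.ext i0
    have h0 : u (0 : Fin 11) = (1, 0) := h.first
    rw [e, h0]; decide
  · by_cases i10 : i.val = 10
    · have e : i = (10 : Fin 11) := Fin.ext i10
      have h0 : u (10 : Fin 11) = (0, 1) := h.last
      rw [e, h0]; decide
    · obtain ⟨a, b⟩ := h.pos i (by omega) (by omega)
      unfold nm
      omega

end Pool.Agent.UPA
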